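import Mathlib

/-!
# Reduced right distributive rings with a condition on the residue division rings: two-generated
right ideals are flat
-/

set_option autoImplicit false

namespace Pool.Agent.H350.RD

variable {A : Type} [Ring A]

/-- the distributivity criterion -/
theorem crit (hdist : ∀ I J K : Submodule Aᵐᵒᵖ A, I ⊓ (J ⊔ K) = (I ⊓ J) ⊔ (I ⊓ K)) (p q : A) :
    ∃ w : A, (∃ k, p * w = q * k) ∧ ∃ k, q * (1 - w) = p * k := by
  have h1 : p ∈ Submodule.span Aᵐᵒᵖ {p} ⊓ (Submodule.span Aᵐᵒᵖ {q} ⊔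
      Submodule.span Aᵐᵒᵖ {p - q}) := by
    refine ⟨Submodule.mem_span_singleton_self p, ?_⟩
    exact Submodule.mem_sup.2 ⟨q, Submodule.mem_span_singleton_self q, p - q,
      Submodule.mem_span_singleton_self _, by abel⟩
  rw [hdist, Submodule.mem_sup] at h1
  obtain ⟨u, ⟨hu1, hu2⟩, v, ⟨hv1, hv2⟩, huv⟩ := h1
  obtain ⟨u', hu'⟩ := Submodule.mem_span_singleton.1 hu2
  obtain ⟨v', hv'⟩ := Submodule.mem_span_singleton.1 hv1
  obtain ⟨h, hh⟩ := Submodule.mem_span_singleton.1 hv2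
  have e1 : q * u'.unop = u := hu'
  have e2 : p * v'.unop = v := hv'
  have e3 : (p - q) * h.unop = v := hh
  refine ⟨1 - h.unop, ⟨u'.unop - h.unop, ?_⟩, ⟨h.unop - v'.unop, ?_⟩⟩
  · rw [mul_sub, mul_sub, mul_one, e1, ← sub_eq_zero]
    have : p - p * h.unop - (u - q * h.unop) = p - (u + (p - q) * h.unop) := by
      rw [sub_mul]; abel
    rw [this, e3, huv, sub_self]
  · rw [sub_sub_cancel, mul_sub, e2, ← e3, sub_mul]
    abel

/-- data of a maximal right ideal -/
structure Mx (M : Submodule Aᵐᵒᵖ A) : Prop where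
  one : (1 : A) ∉ M
  mulr : ∀ m ∈ M, ∀ x : A, m * x ∈ M
  mull : ∀ m ∈ M, ∀ x : A, x * m ∈ M
  prime : ∀ x y : A, x ∉ M → y ∉ M → x * y ∉ M
  inv : ∀ x : A, x ∉ M → ∃ y, x * y - 1 ∈ M ∧ y * x - 1 ∈ M

theorem coatom_inv (M : Submodule Aᵐᵒᵖ A) (hM : IsCoatom M) (x : A) (hx : x ∉ M) :
    ∃ m ∈ M, ∃ y, m + x * y = 1 := by
  have h2 : M ⊔ Submodule.span Aᵐᵒᵖ {x} = ⊤ := by
    refine hM.2 _ (lt_of_le_of_ne le_sup_left fun h => hx ?_)
    rw [h]
    exact Submodule.mem_sup_right (Submodule.mem_span_singleton_self x)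
  have h3 : (1 : A) ∈ M ⊔ Submodule.span Aᵐᵒᵖ {x} := by rw [h2]; trivial
  obtain ⟨m, hm, n, hn, hmn⟩ := Submodule.mem_sup.1 h3
  obtain ⟨x', hx'⟩ := Submodule.mem_span_singleton.1 hn
  have e1 : x * x'.unop = n := hx'
  exact ⟨m, hm, x'.unop, by rw [e1, hmn]⟩

/-- in a right distributive ring: for `x ∉ M` we have `x t ∈ M` iff `t ∈ M` -/
theorem two_sided (hdist : ∀ I J K : Submodule Aᵐᵒᵖ A, I ⊓ (J ⊔ K) = (I ⊓ J) ⊔ (I ⊓ K))
    (M : Submodule Aᵐᵒᵖ A) (hM : IsCoatom M) (x : A) (hx : x ∉ M) (t : A) :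
    x * t ∈ M ↔ t ∈ M := by
  have hr : ∀ m ∈ M, ∀ y : A, m * y ∈ M := fun m hm y => M.smul_mem (MulOpposite.op y) hm
  -- the key fact: there is no `u` with `x u ∈ M` and `1 - u ∈ M`
  have hu : ∀ u : A, x * u ∈ M → 1 - u ∈ M → False := by
    intro u h1 h2
    obtain ⟨w, ⟨k1, e1⟩, ⟨k2, e2⟩⟩ := crit hdist (u * x) (1 - u)
    have f1 : x * w ∈ M := by
      have : x * w = (1 - u) * (x * w) + u * x * w := by noncomm_ring
      rw [this, e1]
      exact M.add_mem (hr _ h2 _) (hr _ h2 _)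
    have f2 : x * (1 - w) ∈ M := by
      have : x * (1 - w) = x * u * (1 - w) + x * ((1 - u) * (1 - w)) := by noncomm_ring
      rw [this, e2]
      refine M.add_mem (hr _ h1 _) ?_
      have : x * (u * x * k2) = x * u * (x * k2) := by noncomm_ring
      rw [this]
      exact hr _ h1 _
    refine hx ?_
    have : x = x * w + x * (1 - w) := by noncomm_ring
    rw [this]
    exact M.add_mem f1 f2
  constructor
  · intro h
    by_contra ht
    obtain ⟨m, hm, y, hy⟩ := coatom_inv M hM t ht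
    refine hu (t * y) ?_ ?_
    · rw [← mul_assoc]; exact hr _ h _
    · rw [← hy, add_sub_cancel_right]; exact hm
  · intro ht
    by_contra h
    obtain ⟨m, hm, y, hy⟩ := coatom_inv M hM (x * t) h
    -- `m + x t y = 1`; take `u = 1 - t y x`
    refine hu (1 - t * y * x) ?_ ?_
    · have : x * (1 - t * y * x) = (1 - x * t * y) * x := by noncomm_ring
      rw [this, ← hy, add_sub_cancel_right]
      exact hr _ hm _
    · rw [sub_sub_cancel, mul_assoc]
      exact hr _ ht _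

theorem mx_of (hdist : ∀ I J K : Submodule Aᵐᵒᵖ A, I ⊓ (J ⊔ K) = (I ⊓ J) ⊔ (I ⊓ K))
    (M : Submodule Aᵐᵒᵖ A) (hM : IsCoatom M) : Mx M := by
  have hr : ∀ m ∈ M, ∀ x : A, m * x ∈ M := fun m hm x => M.smul_mem (MulOpposite.op x) hm
  have h1 : (1 : A) ∉ M := by
    intro h1
    refine hM.1 (eq_top_iff.2 fun x _ => ?_)
    have := hr 1 h1 x
    rwa [one_mul] at this
  have hl : ∀ m ∈ M, ∀ x : A, x * m ∈ M := by
    intro m hm x
    by_cases hx : x ∈ M
    · exact hr x hx m
    · exact (two_sided hdist M hM x hx m).2 hm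
  have hp : ∀ x y : A, x ∉ M → y ∉ M → x * y ∉ M :=
    fun x y hx hy hxy => hy ((two_sided hdist M hM x hx y).1 hxy)
  refine ⟨h1, hr, hl, hp, ?_⟩
  intro x hx
  obtain ⟨m, hm, y, hy⟩ := coatom_inv M hM x hx
  have e1 : x * y - 1 ∈ M := by
    rw [← hy, sub_add_cancel_right]
    exact M.neg_mem hm
  have hy' : y ∉ M := fun h => h1 (by
    rw [← hy]; exact M.add_mem hm (hl y h x))
  refine ⟨y, e1, ?_⟩
  by_contra h
  refine hp _ _ h hy' ?_
  have : (y * x - 1) * y = y * (x * y - 1) := by noncomm_ring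
  rw [this]
  exact hl _ e1 y

/-- the Ore condition at `M` -/
theorem ore (hdist : ∀ I J K : Submodule Aᵐᵒᵖ A, I ⊓ (J ⊔ K) = (I ⊓ J) ⊔ (I ⊓ K))
    {M : Submodule Aᵐᵒᵖ A} (hM : Mx M) (p t : A) (ht : t ∉ M) :
    ∃ t' h : A, t' ∉ M ∧ p * t' = t * h := by
  obtain ⟨w, ⟨k1, h1⟩, ⟨k2, h2⟩⟩ := crit hdist p t
  by_cases hw : w ∈ M
  · have h3 : (1 : A) - w ∉ M := fun h => hM.one (by
      have := M.add_mem h hw
      rwa [sub_add_cancel] at this)
    refine ⟨k2, 1 - w, fun hk => hM.prime t (1 - w) ht h3 ?_, h2.symm⟩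
    rw [h2]
    exact hM.mull k2 hk p
  · exact ⟨w, k1, hw, h1⟩

section core

variable [IsReduced A]

theorem zc {x y : A} (h : x * y = 0) : y * x = 0 := by
  refine IsReduced.eq_zero _ ⟨2, ?_⟩
  rw [pow_two]
  calc y * x * (y * x) = y * (x * y) * x := by noncomm_ring
    _ = 0 := by rw [h]; simp

theorem zi {x y : A} (c : A) (h : x * y = 0) : x * c * y = 0 := by
  refine IsReduced.eq_zero _ ⟨2, ?_⟩
  rw [pow_two]
  calc x * c * y * (x * c * y) = x * c * (y * x) * (c * y) := by noncomm_ring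
    _ = 0 := by rw [zc h]; simp

theorem ann (hdist : ∀ I J K : Submodule Aᵐᵒᵖ A, I ⊓ (J ⊔ K) = (I ⊓ J) ⊔ (I ⊓ K)) {a c : A}
    (h : a * c = 0) : ∃ w, a * w = 0 ∧ c * (1 - w) = 0 := by
  obtain ⟨w, ⟨k1, e1⟩, ⟨k2, e2⟩⟩ := crit hdist a c
  refine ⟨w, IsReduced.eq_zero _ ⟨2, ?_⟩, IsReduced.eq_zero _ ⟨2, ?_⟩⟩
  · rw [pow_two]
    calc a * w * (a * w) = a * w * (c * k1) := congrArg (fun t => a * w * t) e1
      _ = a * w * c * k1 := (mul_assoc _ _ _).symm
      _ = 0 := by rw [zi w h, zero_mul]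
  · rw [pow_two]
    calc c * (1 - w) * (c * (1 - w)) = c * (1 - w) * (a * k2) :=
          congrArg (fun t => c * (1 - w) * t) e2
      _ = c * (1 - w) * a * k2 := (mul_assoc _ _ _).symm
      _ = 0 := by rw [zi (1 - w) (zc h), zero_mul]

/-- the kernel of the localisation at `M` -/
def Z (M : Submodule Aᵐᵒᵖ A) (x : A) : Prop := ∃ t, t ∉ M ∧ x * t = 0

theorem Z_add {M : Submodule Aᵐᵒᵖ A} (hM : Mx M) {x y : A} (hx : Z M x) (hy : Z M y) :
    Z M (x + y) := by
  obtain ⟨t, ht, h1⟩ := hx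
  obtain ⟨t', ht', h2⟩ := hy
  refine ⟨t * t', hM.prime _ _ ht ht', ?_⟩
  rw [add_mul, ← mul_assoc, h1, zero_mul, ← mul_assoc, zi t h2, add_zero]

omit [IsReduced A] in
theorem Z_mull {M : Submodule Aᵐᵒᵖ A} {x : A} (c : A) (hx : Z M x) : Z M (c * x) := by
  obtain ⟨t, ht, h1⟩ := hx
  exact ⟨t, ht, by rw [mul_assoc, h1, mul_zero]⟩

theorem Z_mulr {M : Submodule Aᵐᵒᵖ A} {x : A} (c : A) (hx : Z M x) : Z M (x * c) := by
  obtain ⟨t, ht, h1⟩ := hx
  exact ⟨t, ht, zi c h1⟩

omit [IsReduced A] in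
theorem Z_neg {M : Submodule Aᵐᵒᵖ A} {x : A} (hx : Z M x) : Z M (-x) := by
  obtain ⟨t, ht, h1⟩ := hx
  exact ⟨t, ht, by rw [neg_mul, h1, neg_zero]⟩

omit [IsReduced A] in
theorem Z_zero {M : Submodule Aᵐᵒᵖ A} (hM : Mx M) : Z M (0 : A) := ⟨1, hM.one, zero_mul 1⟩

omit [IsReduced A] in
theorem Z_mem {M : Submodule Aᵐᵒᵖ A} (hM : Mx M) {x : A} (hx : Z M x) : x ∈ M := by
  obtain ⟨t, ht, h1⟩ := hx
  by_contra h
  exact hM.prime x t h ht (by rw [h1]; exact M.zero_mem)

theorem Z_prime (hdist : ∀ I J K : Submodule Aᵐᵒᵖ A, I ⊓ (J ⊔ K) = (I ⊓ J) ⊔ (I ⊓ K))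
    {M : Submodule Aᵐᵒᵖ A} (hM : Mx M) {x y : A} (hx : ¬ Z M x) (h : Z M (x * y)) : Z M y := by
  obtain ⟨t, ht, h1⟩ := h
  obtain ⟨w, h2, h3⟩ := ann hdist (a := x) (c := y * t) (by rw [← mul_assoc, h1])
  have hw : w ∈ M := by
    by_contra hw
    exact hx ⟨w, hw, h2⟩
  have h4 : (1 : A) - w ∉ M := fun h => hM.one (by
    have := M.add_mem h hw
    rwa [sub_add_cancel] at this)
  exact ⟨t * (1 - w), hM.prime _ _ ht h4, by rw [← mul_assoc, h3]⟩

theorem Z_canc (hdist : ∀ I J K : Submodule Aᵐᵒᵖ A, I ⊓ (J ⊔ K) = (I ⊓ J) ⊔ (I ⊓ K))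
    {M : Submodule Aᵐᵒᵖ A} (hM : Mx M) {x y : A} (hx : ¬ Z M x) (h : x * y = 0) : Z M y :=
  Z_prime hdist hM hx (by rw [h]; exact Z_zero hM)

theorem D1 (hdist : ∀ I J K : Submodule Aᵐᵒᵖ A, I ⊓ (J ⊔ K) = (I ⊓ J) ⊔ (I ⊓ K))
    {M : Submodule Aᵐᵒᵖ A} (hM : Mx M) (a b x y z : A) (ha : ¬ Z M a)
    (h1 : a * x = b * y) (h2 : b * (1 - x) = a * z) (hx : x ∈ M) :
    y * z + (1 - x) * (1 - x) ∉ M := by
  have hx' : (1 : A) - x ∉ M := fun h => hM.one (by
    have := M.add_mem h hx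
    rwa [sub_add_cancel] at this)
  obtain ⟨t, h, ht, e1⟩ := ore hdist hM y (1 - x) hx'
  have e2 : x * t - z * h ∈ M := by
    refine Z_mem hM (Z_canc hdist hM ha ?_)
    rw [mul_sub, ← mul_assoc, h1, mul_assoc, e1, ← mul_assoc, h2, mul_assoc, sub_self]
  have e3 : z * h ∈ M := by
    have := M.sub_mem (hM.mulr x hx t) e2
    rwa [sub_sub_cancel] at this
  have e4 : y * z ∈ M := by
    by_cases hz : z ∈ M
    · exact hM.mull z hz y
    · by_cases hh : h ∈ M
      · by_cases hy : y ∈ M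
        · exact hM.mulr y hy z
        · exact absurd (by rw [e1]; exact hM.mull h hh _) (hM.prime y t hy ht)
      · exact absurd e3 (hM.prime z h hz hh)
  intro hD
  have := M.sub_mem hD e4
  rw [add_sub_cancel_left] at this
  exact hM.prime _ _ hx' hx' this

theorem D2 (hdist : ∀ I J K : Submodule Aᵐᵒᵖ A, I ⊓ (J ⊔ K) = (I ⊓ J) ⊔ (I ⊓ K))
    {M : Submodule Aᵐᵒᵖ A} (hM : Mx M) (a b x y z : A) (hb : ¬ Z M b)
    (hcx : ∀ u : A, u ∉ M → u * x - x * u - u ∉ M)
    (h1 : a * x = b * y) (h2 : b * (1 - x) = a * z) (hx : x ∉ M) :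
    x * x + z * y ∉ M := by
  obtain ⟨t, h, ht, e1⟩ := ore hdist hM z x hx
  have e2 : (1 - x) * t - y * h ∈ M := by
    refine Z_mem hM (Z_canc hdist hM hb ?_)
    rw [mul_sub, ← mul_assoc, h2, mul_assoc, e1, ← mul_assoc, h1, mul_assoc, sub_self]
  intro hD
  by_cases hh : h ∈ M
  · have hz : z ∈ M := by
      by_contra hz
      exact hM.prime z t hz ht (by rw [e1]; exact hM.mull h hh x)
    have := M.sub_mem hD (hM.mulr z hz y)
    rw [add_sub_cancel_right] at this
    exact hM.prime _ _ hx hx this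
  · obtain ⟨t', a1, a2⟩ := hM.inv t ht
    obtain ⟨h', b1, b2⟩ := hM.inv h hh
    -- `z = x h t'` and `y = (1 - x) t h'` modulo `M`
    have f1 : z - x * h * t' ∈ M := by
      have : z - x * h * t' = -(z * (t * t' - 1)) := by
        rw [← e1]; noncomm_ring
      rw [this]
      exact M.neg_mem (hM.mull _ a1 z)
    have f2 : y - (1 - x) * t * h' ∈ M := by
      have : y - (1 - x) * t * h' = -(y * (h * h' - 1)) - ((1 - x) * t - y * h) * h' := by
        noncomm_ring
      rw [this]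
      exact M.sub_mem (M.neg_mem (hM.mull _ b1 y)) (hM.mulr _ e2 _)
    have f3 : x * (x + h * t' * ((1 - x) * t * h')) ∈ M := by
      have : x * (x + h * t' * ((1 - x) * t * h')) = (x * x + z * y) -
          (z - x * h * t') * y - (x * h * t') * (y - (1 - x) * t * h') := by noncomm_ring
      rw [this]
      exact M.sub_mem (M.sub_mem hD (hM.mulr _ f1 y)) (hM.mull _ f2 _)
    have f4 : x + h * t' * ((1 - x) * t * h') ∈ M := by
      by_contra hn
      exact hM.prime _ _ hx hn f3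
    have ht' : t' ∉ M := fun ht' => hM.one (by
      have : (1 : A) = t * t' - (t * t' - 1) := by noncomm_ring
      rw [this]
      exact M.sub_mem (hM.mull t' ht' t) a1)
    refine hcx (h * t') (hM.prime _ _ hh ht') ?_
    have : h * t' * x - x * (h * t') - h * t' =
        -((x + h * t' * ((1 - x) * t * h')) * (h * t')) +
          h * t' * ((1 - x) * (t * (h' * h - 1) * t')) +
          h * t' * ((1 - x) * (t * t' - 1)) := by noncomm_ring
    rw [this]
    refine M.add_mem (M.add_mem (M.neg_mem (hM.mulr _ f4 _)) ?_) ?_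
    · exact hM.mull _ (hM.mull _ (hM.mulr _ (hM.mull _ b2 _) _) _) _
    · exact hM.mull _ (hM.mull _ a1 _) _

/-- relations -/
def Rl (a b r s : A) : Prop := a * r + b * s = 0

/-- the common annihilator -/
def N (a b n : A) : Prop := a * n = 0 ∧ b * n = 0

theorem N_mull {a b n : A} (c : A) (h : N a b n) : N a b (c * n) :=
  ⟨by rw [← mul_assoc]; exact zi c h.1, by rw [← mul_assoc]; exact zi c h.2⟩

omit [IsReduced A] in
theorem N_mulr {a b n : A} (c : A) (h : N a b n) : N a b (n * c) :=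
  ⟨by rw [← mul_assoc, h.1, zero_mul], by rw [← mul_assoc, h.2, zero_mul]⟩

omit [IsReduced A] in
theorem N_add {a b n m : A} (h : N a b n) (h' : N a b m) : N a b (n + m) :=
  ⟨by rw [mul_add, h.1, h'.1, add_zero], by rw [mul_add, h.2, h'.2, add_zero]⟩

omit [IsReduced A] in
theorem N_zero {a b : A} : N a b (0 : A) := ⟨mul_zero _, mul_zero _⟩

/-- the image of the map `φ`, up to the annihilator -/
def Im (a b x y z : A) (r s : A) : Prop :=
  ∃ r' s' n1 n2, Rl a b r' s' ∧ N a b n1 ∧ N a b n2 ∧ x * r' - z * s' + n1 = r ∧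
    -(y * r') + (1 - x) * s' + n2 = s

theorem loc (hdist : ∀ I J K : Submodule Aᵐᵒᵖ A, I ⊓ (J ⊔ K) = (I ⊓ J) ⊔ (I ⊓ K))
    {M : Submodule Aᵐᵒᵖ A} (hM : Mx M) (a b x y z : A)
    (hcx : ∀ u : A, u ∉ M → u * x - x * u - u ∉ M)
    (h1 : a * x = b * y) (h2 : b * (1 - x) = a * z) (r s : A) (hrs : Rl a b r s) :
    ∃ t, t ∉ M ∧ Im a b x y z (r * t) (s * t) := by
  unfold Rl at hrs
  by_cases hab : Z M a ∧ Z M b
  · obtain ⟨⟨ta, hta, ea⟩, ⟨tb, htb, eb⟩⟩ := hab
    have hn : N a b (ta * tb) :=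
      ⟨by rw [← mul_assoc, ea, zero_mul], by rw [← mul_assoc]; exact zi ta eb⟩
    refine ⟨ta * tb, hM.prime _ _ hta htb, 0, 0, r * (ta * tb), s * (ta * tb), ?_, N_mull _ hn,
      N_mull _ hn, by simp, by simp⟩
    unfold Rl; simp
  by_cases hx : x ∈ M
  · have hx' : (1 : A) - x ∉ M := fun h => hM.one (by
      have := M.add_mem h hx
      rwa [sub_add_cancel] at this)
    have ha : ¬ Z M a := by
      intro ha
      refine hab ⟨ha, ?_⟩
      by_contra hb
      refine hx' (Z_mem hM (Z_prime hdist hM hb ?_))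
      rw [h2]
      exact Z_mulr z ha
    -- `v t = e h` with `e = (-z, 1 - x)`
    obtain ⟨t, h, ht, e1⟩ := ore hdist hM s (1 - x) hx'
    have hD : y * z + (1 - x) * (1 - x) ∉ M := D1 hdist hM a b x y z ha h1 h2 hx
    obtain ⟨t2, g, ht2, e4⟩ := ore hdist hM (y * z + (1 - x) * (1 - x)) (1 - x) hx'
    have hg : g ∉ M := fun hg => hM.prime _ t2 hD ht2 (by rw [e4]; exact hM.mull g hg _)
    obtain ⟨t4, h', ht4, e5⟩ := ore hdist hM h g hg
    have s2 : -(y * -(z * (t2 * h'))) + (1 - x) * ((1 - x) * (t2 * h')) = s * (t * t4) := by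
      calc _ = ((y * z + (1 - x) * (1 - x)) * t2) * h' := by noncomm_ring
        _ = (1 - x) * (g * h') := by rw [e4, mul_assoc]
        _ = (1 - x) * h * t4 := by rw [← e5, mul_assoc]
        _ = _ := by rw [← e1, mul_assoc]
    obtain ⟨t5, ht5, e6⟩ : Z M (x * -(z * (t2 * h')) - z * ((1 - x) * (t2 * h')) -
        r * (t * t4)) := by
      refine Z_canc hdist hM ha ?_
      have s3 : a * (x * -(z * (t2 * h')) - z * ((1 - x) * (t2 * h'))) =
          -(b * (-(y * -(z * (t2 * h'))) + (1 - x) * ((1 - x) * (t2 * h')))) := by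
        calc a * (x * -(z * (t2 * h')) - z * ((1 - x) * (t2 * h')))
            = -((a * x) * (z * (t2 * h'))) - (a * z) * ((1 - x) * (t2 * h')) := by noncomm_ring
          _ = -((b * y) * (z * (t2 * h'))) - (b * (1 - x)) * ((1 - x) * (t2 * h')) := by
              rw [h1, h2]
          _ = _ := by noncomm_ring
      rw [mul_sub, s3, s2]
      calc -(b * (s * (t * t4))) - a * (r * (t * t4)) = -((a * r + b * s) * (t * t4)) := by
            noncomm_ring
        _ = 0 := by rw [hrs]; simp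
    refine ⟨t * t4 * t5, hM.prime _ _ (hM.prime _ _ ht ht4) ht5, -(z * (t2 * h')) * t5,
      (1 - x) * (t2 * h') * t5, 0, 0, ?_, N_zero, N_zero, ?_, ?_⟩
    · unfold Rl
      calc _ = -((a * z) * (t2 * h') * t5) + b * (1 - x) * (t2 * h') * t5 := by noncomm_ring
        _ = 0 := by rw [← h2]; noncomm_ring
    · rw [add_zero, ← sub_eq_zero, ← e6]; noncomm_ring
    · rw [add_zero]
      calc _ = (-(y * -(z * (t2 * h'))) + (1 - x) * ((1 - x) * (t2 * h'))) * t5 := by noncomm_ring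
        _ = _ := by rw [s2]; noncomm_ring
  · have hb : ¬ Z M b := by
      intro hb
      refine hab ⟨?_, hb⟩
      by_contra ha
      refine hx (Z_mem hM (Z_prime hdist hM ha ?_))
      rw [h1]
      exact Z_mulr y hb
    -- `v t = e' h` with `e' = (x, -y)`
    obtain ⟨t, h, ht, e1⟩ := ore hdist hM r x hx
    have hD : x * x + z * y ∉ M := D2 hdist hM a b x y z hb hcx h1 h2 hx
    obtain ⟨t2, g, ht2, e4⟩ := ore hdist hM (x * x + z * y) x hx
    have hg : g ∉ M := fun hg => hM.prime _ t2 hD ht2 (by rw [e4]; exact hM.mull g hg _)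
    obtain ⟨t4, h', ht4, e5⟩ := ore hdist hM h g hg
    have s1 : x * (x * (t2 * h')) - z * -(y * (t2 * h')) = r * (t * t4) := by
      calc _ = ((x * x + z * y) * t2) * h' := by noncomm_ring
        _ = x * (g * h') := by rw [e4, mul_assoc]
        _ = x * h * t4 := by rw [← e5, mul_assoc]
        _ = _ := by rw [← e1, mul_assoc]
    obtain ⟨t5, ht5, e6⟩ : Z M (-(y * (x * (t2 * h'))) + (1 - x) * -(y * (t2 * h')) -
        s * (t * t4)) := by
      refine Z_canc hdist hM hb ?_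
      have s3 : b * (-(y * (x * (t2 * h'))) + (1 - x) * -(y * (t2 * h'))) =
          -(a * (x * (x * (t2 * h')) - z * -(y * (t2 * h')))) := by
        calc b * (-(y * (x * (t2 * h'))) + (1 - x) * -(y * (t2 * h')))
            = -((b * y) * (x * (t2 * h'))) - (b * (1 - x)) * (y * (t2 * h')) := by noncomm_ring
          _ = -((a * x) * (x * (t2 * h'))) - (a * z) * (y * (t2 * h')) := by
              rw [h1, h2]
          _ = _ := by noncomm_ring
      rw [mul_sub, s3, s1]
      calc -(a * (r * (t * t4))) - b * (s * (t * t4)) = -((a * r + b * s) * (t * t4)) := by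
            noncomm_ring
        _ = 0 := by rw [hrs]; simp
    refine ⟨t * t4 * t5, hM.prime _ _ (hM.prime _ _ ht ht4) ht5, x * (t2 * h') * t5,
      -(y * (t2 * h')) * t5, 0, 0, ?_, N_zero, N_zero, ?_, ?_⟩
    · unfold Rl
      calc _ = (a * x) * (t2 * h') * t5 - b * y * (t2 * h') * t5 := by noncomm_ring
        _ = 0 := by rw [h1]; noncomm_ring
    · rw [add_zero]
      calc _ = (x * (x * (t2 * h')) - z * -(y * (t2 * h'))) * t5 := by noncomm_ring
        _ = _ := by rw [s1]; noncomm_ring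
    · rw [add_zero, ← sub_eq_zero, ← e6]; noncomm_ring

theorem inj (hdist : ∀ I J K : Submodule Aᵐᵒᵖ A, I ⊓ (J ⊔ K) = (I ⊓ J) ⊔ (I ⊓ K))
    {M : Submodule Aᵐᵒᵖ A} (hM : Mx M) (a b x y z : A) (hab : ¬ (Z M a ∧ Z M b))
    (hcx : ∀ u : A, u ∉ M → u * x - x * u - u ∉ M)
    (h1 : a * x = b * y) (h2 : b * (1 - x) = a * z) (r s : A) (hrs : Rl a b r s)
    (e1 : Z M (x * r - z * s)) (e2 : Z M (-(y * r) + (1 - x) * s)) : Z M r ∧ Z M s := by
  unfold Rl at hrs
  have hne : ∀ t : A, t ∉ M → ¬ Z M t := fun t ht h => ht (Z_mem hM h)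
  by_cases hx : x ∈ M
  · have hx' : (1 : A) - x ∉ M := fun h => hM.one (by
      have := M.add_mem h hx
      rwa [sub_add_cancel] at this)
    have ha : ¬ Z M a := by
      intro ha
      refine hab ⟨ha, ?_⟩
      by_contra hb
      refine hx' (Z_mem hM (Z_prime hdist hM hb ?_))
      rw [h2]
      exact Z_mulr z ha
    obtain ⟨t, h, ht, e3⟩ := ore hdist hM s (1 - x) hx'
    have e4 : Z M (r * t + z * h) := by
      refine Z_canc hdist hM ha ?_
      calc a * (r * t + z * h) = a * r * t + (a * z) * h := by noncomm_ring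
        _ = a * r * t + b * ((1 - x) * h) := by rw [← h2, mul_assoc b]
        _ = (a * r + b * s) * t := by rw [← e3]; noncomm_ring
        _ = 0 := by rw [hrs, zero_mul]
    have hD : y * z + (1 - x) * (1 - x) ∉ M := D1 hdist hM a b x y z ha h1 h2 hx
    have h5 : Z M ((y * z + (1 - x) * (1 - x)) * h) := by
      have : (y * z + (1 - x) * (1 - x)) * h =
          (-(y * r) + (1 - x) * s) * t + y * (r * t + z * h) := by
        calc _ = y * z * h + (1 - x) * ((1 - x) * h) := by noncomm_ring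
          _ = y * z * h + (1 - x) * (s * t) := by rw [← e3]
          _ = _ := by noncomm_ring
      rw [this]
      exact Z_add hM (Z_mulr t e2) (Z_mull y e4)
    have h6 : Z M h := Z_prime hdist hM (hne _ hD) h5
    have hst : Z M (s * t) := by rw [e3]; exact Z_mull _ h6
    have hrt : Z M (r * t) := by
      have : r * t = (r * t + z * h) + -(z * h) := by abel
      rw [this]
      exact Z_add hM e4 (Z_neg (Z_mull z h6))
    constructor
    · by_contra hr
      exact hne _ ht (Z_prime hdist hM hr hrt)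
    · by_contra hr
      exact hne _ ht (Z_prime hdist hM hr hst)
  · have hb : ¬ Z M b := by
      intro hb
      refine hab ⟨?_, hb⟩
      by_contra ha
      refine hx (Z_mem hM (Z_prime hdist hM ha ?_))
      rw [h1]
      exact Z_mulr y hb
    obtain ⟨t, h, ht, e3⟩ := ore hdist hM r x hx
    have e4 : Z M (s * t + y * h) := by
      refine Z_canc hdist hM hb ?_
      calc b * (s * t + y * h) = b * s * t + (b * y) * h := by noncomm_ring
        _ = b * s * t + a * (x * h) := by rw [← h1, mul_assoc a x]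
        _ = (a * r + b * s) * t := by rw [← e3]; noncomm_ring
        _ = 0 := by rw [hrs, zero_mul]
    have hD : x * x + z * y ∉ M := D2 hdist hM a b x y z hb hcx h1 h2 hx
    have h5 : Z M ((x * x + z * y) * h) := by
      have : (x * x + z * y) * h = (x * r - z * s) * t + z * (s * t + y * h) := by
        calc _ = x * (x * h) + z * y * h := by noncomm_ring
          _ = x * (r * t) + z * y * h := by rw [← e3]
          _ = _ := by noncomm_ring
      rw [this]
      exact Z_add hM (Z_mulr t e1) (Z_mull z e4)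
    have h6 : Z M h := Z_prime hdist hM (hne _ hD) h5
    have hrt : Z M (r * t) := by rw [e3]; exact Z_mull _ h6
    have hst : Z M (s * t) := by
      have : s * t = (s * t + y * h) + -(y * h) := by abel
      rw [this]
      exact Z_add hM e4 (Z_neg (Z_mull y h6))
    constructor
    · by_contra hr
      exact hne _ ht (Z_prime hdist hM hr hrt)
    · by_contra hr
      exact hne _ ht (Z_prime hdist hM hr hst)

omit [IsReduced A] in
theorem coatomic : IsCoatomic (Submodule Aᵐᵒᵖ A) := by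
  refine CompleteLattice.coatomic_of_top_compact ((Submodule.fg_iff_compact _).1 ?_)
  refine ⟨{1}, ?_⟩
  refine eq_top_iff.2 fun x _ => ?_
  rw [Finset.coe_singleton]
  exact Submodule.mem_span_singleton.2 ⟨MulOpposite.op x, one_mul x⟩

omit [IsReduced A] in
/-- locally zero elements are zero -/
theorem glob {x : A} (h : ∀ M : Submodule Aᵐᵒᵖ A, IsCoatom M → Z M x) : x = 0 := by
  let Q : Submodule Aᵐᵒᵖ A :=
    { carrier := {t | x * t = 0}
      add_mem' := by
        intro t1 t2 f1 f2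
        have f1' : x * t1 = 0 := f1
        have f2' : x * t2 = 0 := f2
        change x * (t1 + t2) = 0
        rw [mul_add, f1', f2', add_zero]
      zero_mem' := mul_zero x
      smul_mem' := by
        intro c t f
        have f' : x * t = 0 := f
        change x * (t * c.unop) = 0
        rw [← mul_assoc, f', zero_mul] }
  have hQ : Q = ⊤ := by
    have := coatomic (A := A)
    rcases eq_top_or_exists_le_coatom Q with h | ⟨M, hM, hQM⟩
    · exact h
    · exfalso
      obtain ⟨t, ht, e⟩ := h M hM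
      exact ht (hQM e)
  have h3 : (1 : A) ∈ Q := by rw [hQ]; trivial
  have h4 : x * 1 = 0 := h3
  rwa [mul_one] at h4

theorem surj (hdist : ∀ I J K : Submodule Aᵐᵒᵖ A, I ⊓ (J ⊔ K) = (I ⊓ J) ⊔ (I ⊓ K))
    (a b x y z : A)
    (hc : ∀ M : Submodule Aᵐᵒᵖ A, IsCoatom M → ∀ u : A, u ∉ M → u * x - x * u - u ∉ M)
    (h1 : a * x = b * y) (h2 : b * (1 - x) = a * z) (r s : A) (hrs : Rl a b r s) :
    Im a b x y z r s := by
  let Q : Submodule Aᵐᵒᵖ A :=
    { carrier := {t | Im a b x y z (r * t) (s * t)}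
      add_mem' := by
        rintro t1 t2 ⟨r1, s1, n1, n2, f1, fa, fb, f2, f3⟩ ⟨r2, s2, m1, m2, g1, ga, gb, g2, g3⟩
        refine ⟨r1 + r2, s1 + s2, n1 + m1, n2 + m2, ?_, N_add fa ga, N_add fb gb, ?_, ?_⟩
        · unfold Rl at *
          calc a * (r1 + r2) + b * (s1 + s2) = (a * r1 + b * s1) + (a * r2 + b * s2) := by
                noncomm_ring
            _ = 0 := by rw [f1, g1, add_zero]
        · rw [mul_add r, ← f2, ← g2]; noncomm_ring
        · rw [mul_add s, ← f3, ← g3]; noncomm_ring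
      zero_mem' := ⟨0, 0, 0, 0, by unfold Rl; simp, N_zero, N_zero, by simp, by simp⟩
      smul_mem' := by
        rintro c t ⟨r1, s1, n1, n2, f1, fa, fb, f2, f3⟩
        have hct : c • t = t * c.unop := rfl
        rw [hct]
        refine ⟨r1 * c.unop, s1 * c.unop, n1 * c.unop, n2 * c.unop, ?_, N_mulr _ fa, N_mulr _ fb,
          ?_, ?_⟩
        · unfold Rl at *
          rw [← mul_assoc, ← mul_assoc, ← add_mul, f1, zero_mul]
        · rw [← mul_assoc r, ← f2]; noncomm_ring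
        · rw [← mul_assoc s, ← f3]; noncomm_ring }
  have hQ : Q = ⊤ := by
    have := coatomic (A := A)
    rcases eq_top_or_exists_le_coatom Q with h | ⟨M, hM, hQM⟩
    · exact h
    · exfalso
      obtain ⟨t, ht, hI⟩ := loc hdist (mx_of hdist M hM) a b x y z (hc M hM) h1 h2 r s hrs
      exact ht (hQM hI)
  have h3 : (1 : A) ∈ Q := by rw [hQ]; trivial
  have h4 : Im a b x y z (r * 1) (s * 1) := h3
  rwa [mul_one, mul_one] at h4

/-- an element of the common annihilator fixing a given one -/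
theorem fixone (hdist : ∀ I J K : Submodule Aᵐᵒᵖ A, I ⊓ (J ⊔ K) = (I ⊓ J) ⊔ (I ⊓ K))
    {a b d : A} (h : N a b d) : ∃ w, N a b w ∧ w * d = d := by
  obtain ⟨u, hu1, hu2⟩ := ann hdist h.1
  obtain ⟨v, hv1, hv2⟩ := ann hdist h.2
  have hu3 : u * d = d := by
    have := zc hu2
    rw [sub_mul, one_mul, sub_eq_zero] at this
    exact this.symm
  have hv3 : v * d = d := by
    have := zc hv2
    rw [sub_mul, one_mul, sub_eq_zero] at this
    exact this.symm
  refine ⟨u * v, ⟨by rw [← mul_assoc, hu1, zero_mul], by rw [← mul_assoc]; exact zi u hv1⟩, ?_⟩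
  rw [mul_assoc, hv3, hu3]

/-- the relations between two elements form a pure submodule of `A²` -/
theorem split (hdist : ∀ I J K : Submodule Aᵐᵒᵖ A, I ⊓ (J ⊔ K) = (I ⊓ J) ⊔ (I ⊓ K))
    (hc : ∀ x : A, ∃ x' : A, (∃ p, x' = x * p) ∧ (∃ q, 1 - x' = (1 - x) * q) ∧
      ∀ M : Submodule Aᵐᵒᵖ A, IsCoatom M → ∀ u : A, u ∉ M → u * x' - x' * u - u ∉ M) (a b : A)
    (r s : A) (hrs : a * r + b * s = 0) :
    ∃ p1 p2 q1 q2 : A, a * p1 + b * p2 = 0 ∧ a * q1 + b * q2 = 0 ∧
      p1 * r + q1 * s = r ∧ p2 * r + q2 * s = s := by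
  obtain ⟨x0, ⟨y0, h10⟩, ⟨z0, h20⟩⟩ := crit hdist a b
  obtain ⟨x, ⟨p, hp⟩, ⟨q, hq⟩, hcx⟩ := hc x0
  obtain ⟨y, h1⟩ : ∃ y, a * x = b * y := ⟨y0 * p, by rw [hp, ← mul_assoc, h10, mul_assoc]⟩
  obtain ⟨z, h2⟩ : ∃ z, b * (1 - x) = a * z := ⟨z0 * q, by rw [hq, ← mul_assoc, h20, mul_assoc]⟩
  clear hp hq
  obtain ⟨p1, p2, n1, n2, hp0, hn1, hn2, hp1, hp2⟩ := surj hdist a b x y z hcx h1 h2 x (-y) (by
    unfold Rl; rw [h1]; noncomm_ring)
  obtain ⟨q1, q2, m1, m2, hq0, hm1, hm2, hq1, hq2⟩ := surj hdist a b x y z hcx h1 h2 (-z)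
    (1 - x) (by unfold Rl; rw [h2]; noncomm_ring)
  unfold Rl at hp0 hq0
  -- the difference is locally zero unless `a` and `b` both are
  have hK : a * (p1 * r + q1 * s - r) + b * (p2 * r + q2 * s - s) = 0 := by
    calc a * (p1 * r + q1 * s - r) + b * (p2 * r + q2 * s - s)
        = (a * p1 + b * p2) * r + (a * q1 + b * q2) * s - (a * r + b * s) := by noncomm_ring
      _ = 0 := by rw [hp0, hq0, hrs]; simp
  have hloc : ∀ M : Submodule Aᵐᵒᵖ A, IsCoatom M → ¬ (Z M a ∧ Z M b) →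
      Z M (p1 * r + q1 * s - r) ∧ Z M (p2 * r + q2 * s - s) := by
    intro M hM hab
    have hMx := mx_of hdist M hM
    have hN : ∀ n : A, N a b n → Z M n := by
      intro n hn
      by_cases ha : Z M a
      · exact Z_canc hdist hMx (fun hb => hab ⟨ha, hb⟩) hn.2
      · exact Z_canc hdist hMx ha hn.1
    refine inj hdist hMx a b x y z hab (hcx M hM) h1 h2 _ _ hK ?_ ?_
    · have : x * (p1 * r + q1 * s - r) - z * (p2 * r + q2 * s - s) =
          -(n1 * r + m1 * s) := by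
        calc _ = (x * p1 - z * p2 + n1 - x) * r + (x * q1 - z * q2 + m1 - -z) * s -
              (n1 * r + m1 * s) := by noncomm_ring
          _ = _ := by rw [hp1, hq1]; noncomm_ring
      rw [this]
      exact Z_neg (Z_add hMx (Z_mulr _ (hN _ hn1)) (Z_mulr _ (hN _ hm1)))
    · have : -(y * (p1 * r + q1 * s - r)) + (1 - x) * (p2 * r + q2 * s - s) =
          -(n2 * r + m2 * s) := by
        calc _ = (-(y * p1) + (1 - x) * p2 + n2 - -y) * r +
              (-(y * q1) + (1 - x) * q2 + m2 - (1 - x)) * s - (n2 * r + m2 * s) := by noncomm_ring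
          _ = _ := by rw [hp2, hq2]; noncomm_ring
      rw [this]
      exact Z_neg (Z_add hMx (Z_mulr _ (hN _ hn2)) (Z_mulr _ (hN _ hm2)))
  have hNd : ∀ d : A, (∀ M : Submodule Aᵐᵒᵖ A, IsCoatom M → ¬ (Z M a ∧ Z M b) → Z M d) →
      N a b d := by
    intro d hd
    constructor
    · refine glob fun M hM => ?_
      by_cases hab : Z M a ∧ Z M b
      · exact Z_mulr d hab.1
      · exact Z_mull a (hd M hM hab)
    · refine glob fun M hM => ?_
      by_cases hab : Z M a ∧ Z M b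
      · exact Z_mulr d hab.2
      · exact Z_mull b (hd M hM hab)
  have hd1 := hNd _ fun M hM hab => (hloc M hM hab).1
  have hd2 := hNd _ fun M hM hab => (hloc M hM hab).2
  obtain ⟨v, hv, hv2⟩ := fixone hdist hd2
  obtain ⟨u, hu, hu2⟩ := fixone hdist (N_mull (1 - v) hd1)
  -- `1 - w = (1 - u) (1 - v)`
  have hw : N a b (u + v - u * v) := by
    have : u + v - u * v = u + (1 - u) * v := by noncomm_ring
    rw [this]
    exact N_add hu (N_mull _ hv)
  have w1 : (u + v - u * v) * (p1 * r + q1 * s - r) = p1 * r + q1 * s - r := by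
    have : (u + v - u * v) * (p1 * r + q1 * s - r) = u * ((1 - v) * (p1 * r + q1 * s - r)) +
        v * (p1 * r + q1 * s - r) := by noncomm_ring
    rw [this, hu2]; noncomm_ring
  have w2 : (u + v - u * v) * (p2 * r + q2 * s - s) = p2 * r + q2 * s - s := by
    have : (u + v - u * v) * (p2 * r + q2 * s - s) = u * (p2 * r + q2 * s - s) +
        v * (p2 * r + q2 * s - s) - u * (v * (p2 * r + q2 * s - s)) := by noncomm_ring
    rw [this, hv2]; noncomm_ring
  generalize u + v - u * v = w at hw w1 w2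
  refine ⟨p1 + w * (1 - p1), p2 - w * p2, q1 - w * q1, q2 + w * (1 - q2), ?_, ?_, ?_, ?_⟩
  · calc a * (p1 + w * (1 - p1)) + b * (p2 - w * p2) =
          (a * p1 + b * p2) + (a * w) * (1 - p1) - (b * w) * p2 := by noncomm_ring
      _ = 0 := by rw [hp0, hw.1, hw.2]; simp
  · calc a * (q1 - w * q1) + b * (q2 + w * (1 - q2)) =
          (a * q1 + b * q2) - (a * w) * q1 + (b * w) * (1 - q2) := by noncomm_ring
      _ = 0 := by rw [hq0, hw.1, hw.2]; simp
  · calc (p1 + w * (1 - p1)) * r + (q1 - w * q1) * s =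
          p1 * r + q1 * s - w * (p1 * r + q1 * s - r) := by noncomm_ring
      _ = r := by rw [w1]; noncomm_ring
  · calc (p2 - w * p2) * r + (q2 + w * (1 - q2)) * s =
          p2 * r + q2 * s - w * (p2 * r + q2 * s - s) := by noncomm_ring
      _ = s := by rw [w2]; noncomm_ring

end core

end Pool.Agent.H350.RD

namespace Pool.Agent.Results.MP_7346ec_al.TwoGenerated

/-- Let `A` be a reduced right distributive ring such that for every `x` there is `x' ∈ xA` with
`1 - x' ∈ (1 - x)A` and `x'` not conjugate to `x' + 1` modulo any maximal right ideal.  Then every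
right ideal of `A` with two generators is flat (equational criterion for all relations, as in the
frozen statement). -/
theorem result (A : Type) [Ring A] [IsReduced A]
    (hdist : ∀ I J K : Submodule Aᵐᵒᵖ A, I ⊓ (J ⊔ K) = (I ⊓ J) ⊔ (I ⊓ K))
    (hc : ∀ x : A, ∃ x' : A, (∃ p, x' = x * p) ∧ (∃ q, 1 - x' = (1 - x) * q) ∧
      ∀ M : Submodule Aᵐᵒᵖ A, IsCoatom M → ∀ u : A, u ∉ M → u * x' - x' * u - u ∉ M) (a b : A) :
    ∀ (n : ℕ) (m c : Fin n → A), (∀ i, m i ∈ Submodule.span Aᵐᵒᵖ ({a, b} : Set A)) →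
      ∑ i, m i * c i = 0 →
      ∃ (k : ℕ) (y : Fin k → A) (B : Fin k → Fin n → A),
        (∀ j, y j ∈ Submodule.span Aᵐᵒᵖ ({a, b} : Set A)) ∧ (∀ i, m i = ∑ j, y j * B j i) ∧
          (∀ j, ∑ i, B j i * c i = 0) := by
  intro n m c hm hsum
  have h1 : ∀ i, ∃ α β : A, m i = a * α + b * β := by
    intro i
    obtain ⟨α, β, h⟩ := Submodule.mem_span_pair.1 (hm i)
    exact ⟨α.unop, β.unop, h.symm⟩
  choose α β hαβ using h1
  have h2 : a * (∑ i, α i * c i) + b * (∑ i, β i * c i) = 0 := by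
    rw [Finset.mul_sum, Finset.mul_sum, ← Finset.sum_add_distrib, ← hsum]
    refine Finset.sum_congr rfl fun i _ => ?_
    rw [hαβ i, add_mul, mul_assoc, mul_assoc]
  obtain ⟨p1, p2, q1, q2, hp, hq, h3, h4⟩ := Pool.Agent.H350.RD.split hdist hc a b _ _ h2
  refine ⟨2, ![a, b], ![fun i => α i - (p1 * α i + q1 * β i), fun i => β i -
    (p2 * α i + q2 * β i)], ?_, ?_, ?_⟩
  · intro j
    fin_cases j
    · exact Submodule.subset_span (by simp)
    · exact Submodule.subset_span (by simp)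
  · intro i
    rw [Fin.sum_univ_two]
    simp only [Matrix.cons_val_zero, Matrix.cons_val_one]
    calc m i = a * α i + b * β i := hαβ i
      _ = a * α i + b * β i - ((a * p1 + b * p2) * α i + (a * q1 + b * q2) * β i) := by
          rw [hp, hq]; simp
      _ = _ := by noncomm_ring
  · intro j
    fin_cases j
    · change ∑ i, (α i - (p1 * α i + q1 * β i)) * c i = 0
      have h5 : ∑ i, (α i - (p1 * α i + q1 * β i)) * c i =
          ∑ i, α i * c i - (p1 * ∑ i, α i * c i + q1 * ∑ i, β i * c i) := by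
        rw [Finset.mul_sum, Finset.mul_sum, ← Finset.sum_add_distrib, ← Finset.sum_sub_distrib]
        exact Finset.sum_congr rfl fun i _ => by noncomm_ring
      rw [h5, h3, sub_self]
    · change ∑ i, (β i - (p2 * α i + q2 * β i)) * c i = 0
      have h5 : ∑ i, (β i - (p2 * α i + q2 * β i)) * c i =
          ∑ i, β i * c i - (p2 * ∑ i, α i * c i + q2 * ∑ i, β i * c i) := by
        rw [Finset.mul_sum, Finset.mul_sum, ← Finset.sum_add_distrib, ← Finset.sum_sub_distrib]
        exact Finset.sum_congr rfl fun i _ => by noncomm_ring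
      rw [h5, h4, sub_self]

end Pool.Agent.Results.MP_7346ec_al.TwoGenerated
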